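import Pool.Agent.helper94.FIP.Spec

set_option autoImplicit false

namespace Pool.Agent.FIP

open Finset
open Pool.Agent.SCT (ff)

private theorem PFA_point (n : ℕ) :
    ff n ^ 4 ≤ ∑ D ∈ n.primeFactors.powerset, ∏ l ∈ D, (15 / (l : ℝ)) := by
  rw [← Finset.prod_one_add]
  unfold ff
  rw [← Finset.prod_pow]
  apply Finset.prod_le_prod
  · intro l _
    positivity
  · intro l hl
    have hl2 : (2 : ℝ) ≤ (l : ℝ) := by exact_mod_cast (Nat.prime_of_mem_primeFactors hl).two_le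
    have e : 15 / (l : ℝ) = 15 * (1 / (l : ℝ)) := by ring
    rw [e]
    have hx1 : 1 / (l : ℝ) ≤ 1 := by
      rw [div_le_one (by linarith)]
      linarith
    have hx0 : 0 ≤ 1 / (l : ℝ) := by positivity
    generalize 1 / (l : ℝ) = x at hx0 hx1
    have h2 : x ^ 2 ≤ x := by nlinarith
    have h3 : x ^ 3 ≤ x := by nlinarith
    have h4 : x ^ 4 ≤ x := by nlinarith [sq_nonneg (x ^ 2)]
    nlinarith

private theorem PFA_count (A : ℕ) (D : Finset ℕ) (hD : ∀ l ∈ D, l.Prime) :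
    (#((Icc 1 A).filter fun n => D ⊆ n.primeFactors) : ℝ) ≤ A / ∏ l ∈ D, (l : ℝ) := by
  have hsub : ((Icc 1 A).filter fun n => D ⊆ n.primeFactors) ⊆
      (Ioc 0 A).filter fun n => (∏ l ∈ D, l) ∣ n := by
    intro n hn
    rw [Finset.mem_filter, Finset.mem_Icc] at hn
    rw [Finset.mem_filter, Finset.mem_Ioc]
    refine ⟨⟨by omega, hn.1.2⟩, ?_⟩
    apply Finset.prod_primes_dvd
    · intro l hl
      exact (hD l hl).prime
    · intro l hl
      exact Nat.dvd_of_mem_primeFactors (hn.2 hl)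
  have h1 := Finset.card_le_card hsub
  rw [Nat.Ioc_filter_dvd_card_eq_div] at h1
  calc (#((Icc 1 A).filter fun n => D ⊆ n.primeFactors) : ℝ) ≤ ((A / ∏ l ∈ D, l : ℕ) : ℝ) := by
        exact_mod_cast h1
    _ ≤ (A : ℝ) / ((∏ l ∈ D, l : ℕ) : ℝ) := Nat.cast_div_le
    _ = A / ∏ l ∈ D, (l : ℝ) := by push_cast; rfl

private theorem PFA_sq (A : ℕ) : ∏ l ∈ (Icc 1 A).filter Nat.Prime, (1 + 15 / (l : ℝ) ^ 2) ≤
    Real.exp (15 * ∑' n : ℕ, 1 / (n : ℝ) ^ 2) := by
  have hs : Summable fun n : ℕ => 1 / (n : ℝ) ^ 2 :=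
    Real.summable_one_div_nat_pow.2 (by norm_num)
  calc ∏ l ∈ (Icc 1 A).filter Nat.Prime, (1 + 15 / (l : ℝ) ^ 2)
      ≤ ∏ l ∈ (Icc 1 A).filter Nat.Prime, Real.exp (15 / (l : ℝ) ^ 2) := by
        apply Finset.prod_le_prod
        · intro l _
          positivity
        · intro l _
          have := Real.add_one_le_exp (15 / (l : ℝ) ^ 2)
          linarith
    _ = Real.exp (∑ l ∈ (Icc 1 A).filter Nat.Prime, 15 / (l : ℝ) ^ 2) := (Real.exp_sum _ _).symm
    _ ≤ Real.exp (15 * ∑' n : ℕ, 1 / (n : ℝ) ^ 2) := by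
        apply Real.exp_le_exp.2
        have e : ∑ l ∈ (Icc 1 A).filter Nat.Prime, 15 / (l : ℝ) ^ 2 =
            15 * ∑ l ∈ (Icc 1 A).filter Nat.Prime, 1 / (l : ℝ) ^ 2 := by
          rw [Finset.mul_sum]
          apply Finset.sum_congr rfl
          intro l _
          ring
        rw [e]
        apply mul_le_mul_of_nonneg_left _ (by norm_num)
        exact hs.sum_le_tsum _ (fun n _ => by positivity)

theorem PFA : PFA_stmt := by
  refine ⟨Real.exp (15 * ∑' n : ℕ, 1 / (n : ℝ) ^ 2), Real.exp_pos _, ?_⟩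
  intro A
  set P : Finset ℕ := (Icc 1 A).filter Nat.Prime with hP
  calc ∑ a ∈ Icc 1 A, ff a ^ 4
      ≤ ∑ a ∈ Icc 1 A, ∑ D ∈ a.primeFactors.powerset, ∏ l ∈ D, (15 / (l : ℝ)) :=
        Finset.sum_le_sum fun a _ => PFA_point a
    _ = ∑ D ∈ P.powerset, ∑ _a ∈ (Icc 1 A).filter (fun n => D ⊆ n.primeFactors),
          ∏ l ∈ D, (15 / (l : ℝ)) := by
        apply Finset.sum_comm'
        intro a D
        rw [Finset.mem_powerset, Finset.mem_powerset, Finset.mem_filter]
        constructor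
        · rintro ⟨ha, hD⟩
          refine ⟨⟨ha, hD⟩, ?_⟩
          intro l hl
          have hl' := hD hl
          rw [hP, Finset.mem_filter, Finset.mem_Icc]
          rw [Finset.mem_Icc] at ha
          have hp := Nat.prime_of_mem_primeFactors hl'
          exact ⟨⟨hp.one_le, (Nat.le_of_dvd (by omega) (Nat.dvd_of_mem_primeFactors hl')).trans ha.2⟩,
            hp⟩
        · rintro ⟨⟨ha, hD⟩, _⟩
          exact ⟨ha, hD⟩
    _ ≤ ∑ D ∈ P.powerset, (A : ℝ) * ∏ l ∈ D, (15 / (l : ℝ) ^ 2) := by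
        apply Finset.sum_le_sum
        intro D hD
        rw [Finset.mem_powerset] at hD
        have hDp : ∀ l ∈ D, l.Prime := fun l hl => (Finset.mem_filter.1 (hD hl)).2
        rw [Finset.sum_const, nsmul_eq_mul]
        have h1 := PFA_count A D hDp
        have h0 : 0 ≤ ∏ l ∈ D, (15 / (l : ℝ)) := Finset.prod_nonneg fun l _ => by positivity
        refine (mul_le_mul_of_nonneg_right h1 h0).trans (le_of_eq ?_)
        rw [div_mul_eq_mul_div, mul_div_assoc, ← Finset.prod_div_distrib]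
        congr 1
        apply Finset.prod_congr rfl
        intro l hl
        have : (l : ℝ) ≠ 0 := by exact_mod_cast (hDp l hl).ne_zero
        field_simp
    _ = A * ∏ l ∈ P, (1 + 15 / (l : ℝ) ^ 2) := by
        rw [← Finset.mul_sum, Finset.prod_one_add]
    _ ≤ A * Real.exp (15 * ∑' n : ℕ, 1 / (n : ℝ) ^ 2) :=
        mul_le_mul_of_nonneg_left (PFA_sq A) (Nat.cast_nonneg A)
    _ = Real.exp (15 * ∑' n : ℕ, 1 / (n : ℝ) ^ 2) * A := mul_comm _ _

end Pool.Agent.FIP
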